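import Pool.Agent.PV3.Stmts

set_option autoImplicit false

/-!
# Squad PV3, module ASY: `-K` lies in a translate of `n K` (by Helly's theorem)
-/

open MeasureTheory Metric Set Filter Topology Pointwise

namespace PV3.H48

open PV PV3

variable {n : ℕ}

theorem sum_mem_smul {K : Set (E n)} (hK : Convex ℝ K) (hne : K.Nonempty) {ι : Type*}
    (s : Finset ι) (f : ι → E n) (hf : ∀ i ∈ s, f i ∈ K) :
    ∑ i ∈ s, f i ∈ (s.card : ℝ) • K := by
  classical
  induction s using Finset.induction_on with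
  | empty =>
    obtain ⟨x, hx⟩ := hne
    rw [Finset.sum_empty, Finset.card_empty, Nat.cast_zero]
    exact ⟨x, hx, zero_smul _ _⟩
  | insert a s ha ih =>
    rw [Finset.sum_insert ha, Finset.card_insert_of_notMem ha, Nat.cast_add, Nat.cast_one,
      add_comm (s.card : ℝ) 1, hK.add_smul zero_le_one (Nat.cast_nonneg _)]
    refine Set.add_mem_add ?_ (ih fun i hi => hf i (Finset.mem_insert_of_mem hi))
    rw [one_smul]
    exact hf a (Finset.mem_insert_self a s)

theorem asy : ASYStmt := by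
  classical
  intro n K hK
  obtain ⟨x₀, hx₀⟩ : K.Nonempty := hK.full.mono interior_subset
  let F : K → Set (E n) := fun x => {(x : E n)} + (n : ℝ) • K
  obtain ⟨z, hz⟩ : (⋂ x, F x).Nonempty := by
    refine Convex.helly_theorem_compact' (𝕜 := ℝ) (fun x => (convex_singleton _).add
      (hK.cvx.smul _)) (fun x => isCompact_singleton.add (hK.cpt.smul _)) ?_
    intro I hI
    rw [finrank_euclideanSpace_fin] at hI
    refine ⟨∑ i ∈ I, (i : E n) + ((n + 1 - I.card : ℕ) : ℝ) • x₀, ?_⟩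
    rw [mem_iInter₂]
    intro x hx
    refine ⟨(x : E n), rfl, ∑ i ∈ I.erase x, (i : E n) + ((n + 1 - I.card : ℕ) : ℝ) • x₀, ?_, ?_⟩
    · have h1 : (n : ℝ) = ((I.erase x).card : ℝ) + ((n + 1 - I.card : ℕ) : ℝ) := by
        rw [Finset.card_erase_of_mem hx, ← Nat.cast_add]
        have h2 : 1 ≤ I.card := Finset.card_pos.2 ⟨x, hx⟩
        congr 1
        omega
      rw [h1, hK.cvx.add_smul (Nat.cast_nonneg _) (Nat.cast_nonneg _)]
      exact Set.add_mem_add (sum_mem_smul hK.cvx ⟨x₀, hx₀⟩ _ _ fun i _ => i.2)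
        (Set.smul_mem_smul_set hx₀)
    · dsimp only
      rw [← add_assoc, Finset.add_sum_erase I (fun i => (i : E n)) hx]
  refine ⟨-z, fun w => ?_⟩
  unfold hs
  refine csSup_le (Set.image_nonempty.2 ⟨x₀, hx₀⟩) ?_
  rintro _ ⟨x, hx, rfl⟩
  rw [mem_iInter] at hz
  obtain ⟨x', hx', y, ⟨k, hk, hky⟩, hxy⟩ := hz ⟨x, hx⟩
  have hx'' : x' = x := hx'
  have hky' : (n : ℝ) • k = y := hky
  have hxy' : x' + y = z := hxy
  have hbdd : BddAbove ((fun x => inner ℝ x w) '' K) :=
    (hK.cpt.image (by fun_prop)).bddAbove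
  have h1 : (inner ℝ k w : ℝ) ≤ sSup ((fun x => inner ℝ x w) '' K) :=
    le_csSup hbdd ⟨k, hk, rfl⟩
  have h2 : x = z - (n : ℝ) • k := by
    rw [← hxy', hx'', hky']
    abel
  dsimp only
  rw [inner_neg_right, h2, inner_sub_left, real_inner_smul_left, inner_neg_left]
  have h3 : (n : ℝ) * inner ℝ k w ≤ n * sSup ((fun x => inner ℝ x w) '' K) :=
    mul_le_mul_of_nonneg_left h1 (Nat.cast_nonneg _)
  linarith

end PV3.H48
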