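import Pool.Agent.PV3.Stmts

set_option autoImplicit false

/-!
# Squad PV3, module VPO: a bounded polyhedron is the convex hull of a finite set
-/

open MeasureTheory Metric Set Filter Topology Pointwise

namespace PV3.H48

open PV PV3

variable {n : ℕ}

theorem isClosed_Pl (U : Finset (E n)) (c : E n → ℝ) : IsClosed (Pl U c) := by
  have h : Pl U c = ⋂ w ∈ U, {x | inner ℝ x w ≤ c w} := by
    ext x
    simp only [Pl, mem_ofPred_eq, mem_iInter]
  rw [h]
  refine isClosed_biInter fun w _ => ?_
  exact isClosed_le (continuous_id.inner continuous_const) continuous_const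

theorem convex_Pl (U : Finset (E n)) (c : E n → ℝ) : Convex ℝ (Pl U c) := by
  intro x hx y hy a b ha hb hab w hw
  rw [inner_add_left, real_inner_smul_left, real_inner_smul_left]
  calc a * inner ℝ x w + b * inner ℝ y w ≤ a * c w + b * c w :=
        add_le_add (mul_le_mul_of_nonneg_left (hx w hw) ha)
          (mul_le_mul_of_nonneg_left (hy w hw) hb)
    _ = c w := by rw [← add_mul, hab, one_mul]

/-- An extreme point is determined by its active set. -/
theorem ext_inj (U : Finset (E n)) (c : E n → ℝ) {p q : E n}
    (hp : p ∈ extremePoints ℝ (Pl U c)) (hq : q ∈ extremePoints ℝ (Pl U c))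
    (h : ∀ w ∈ U, inner ℝ p w = c w → inner ℝ q w = c w) : p = q := by
  have hpP := hp.1
  have hqP := hq.1
  have hev : ∀ᶠ ε : ℝ in 𝓝[>] 0, p + ε • (p - q) ∈ Pl U c := by
    have h1 : ∀ᶠ ε : ℝ in 𝓝[>] 0, ∀ w ∈ U, inner ℝ (p + ε • (p - q)) w ≤ c w := by
      rw [Filter.eventually_all_finset]
      intro w hw
      by_cases ha : inner ℝ p w = c w
      · refine Filter.Eventually.of_forall fun ε => ?_
        rw [inner_add_left, real_inner_smul_left, inner_sub_left, ha, h w hw ha, sub_self,
          mul_zero, add_zero]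
      · have hlt : inner ℝ p w < c w := lt_of_le_of_ne (hpP w hw) ha
        have hcont : Continuous fun ε : ℝ => (inner ℝ (p + ε • (p - q)) w : ℝ) := by
          fun_prop
        have h2 : ∀ᶠ ε : ℝ in 𝓝 0, (inner ℝ (p + ε • (p - q)) w : ℝ) < c w := by
          refine hcont.continuousAt.eventually_lt continuousAt_const ?_
          rw [zero_smul, add_zero]
          exact hlt
        exact (h2.filter_mono nhdsWithin_le_nhds).mono fun ε hε => hε.le
    exact h1
  obtain ⟨ε, hε, hε0⟩ := (hev.and self_mem_nhdsWithin).exists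
  have hε0' : (0 : ℝ) < ε := hε0
  have hseg : p ∈ openSegment ℝ (p + ε • (p - q)) q := by
    refine ⟨1 / (1 + ε), ε / (1 + ε), by positivity, by positivity, ?_, ?_⟩
    · rw [← add_div]
      exact div_self (by positivity)
    · have h3 : (1 + ε) ≠ 0 := by positivity
      have h4 : (1 / (1 + ε)) • (p + ε • (p - q)) + (ε / (1 + ε)) • q =
          ((1 / (1 + ε)) * (1 + ε)) • p := by
        rw [smul_add, smul_smul, smul_sub, mul_add, add_smul, mul_one,
          show 1 / (1 + ε) * ε = ε / (1 + ε) by ring]
        abel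
      rw [h4, one_div, inv_mul_cancel₀ h3, one_smul]
  exact (((mem_extremePoints.1 hp).2 _ hε _ hqP hseg).2).symm

theorem vpo : VPOStmt := by
  classical
  intro n U c hb
  have hcomp : IsCompact (Pl U c) := Metric.isCompact_of_isClosed_isBounded (isClosed_Pl U c) hb
  have hfin : (extremePoints ℝ (Pl U c)).Finite := by
    refine Set.Finite.of_finite_image (f := fun p => U.filter fun w => inner ℝ p w = c w) ?_ ?_
    · refine (U.powerset.finite_toSet).subset ?_
      rintro _ ⟨p, _, rfl⟩
      rw [Finset.mem_coe, Finset.mem_powerset]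
      exact Finset.filter_subset _ _
    · intro p hp q hq hpq
      refine ext_inj U c hp hq fun w hw hpw => ?_
      have h1 : w ∈ U.filter fun w => inner ℝ p w = c w := Finset.mem_filter.2 ⟨hw, hpw⟩
      have h2 : (U.filter fun w => inner ℝ p w = c w) = U.filter fun w => inner ℝ q w = c w := hpq
      rw [h2] at h1
      exact (Finset.mem_filter.1 h1).2
  refine ⟨hfin.toFinset, ?_⟩
  rw [hfin.coe_toFinset]
  have h1 := closure_convexHull_extremePoints hcomp (convex_Pl U c)
  rw [IsClosed.closure_eq (hfin.isCompact_convexHull ℝ).isClosed] at h1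
  exact h1.symm

end PV3.H48
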